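import Pool.Agent.Y328.KS.Asym

/-! Kostlan systems: almost surely there are many good cells. -/

open Set MeasureTheory ProbabilityTheory Filter Topology

namespace Pool.Agent.Y328.KS

open Pool.Agent.K300 Pool.Agent.Y300.KS

/-- the cells of a residue class -/
def ce (n M D al a : ℕ) : ℕ := ci n D (al + M * a)

lemma lt_of_res {M Q al a : ℕ} (hal : al < M) (ha : a < Q) : al + M * a < M * Q := by
  calc al + M * a < M + M * a := by omega
    _ = M * (a + 1) := by ring
    _ ≤ M * Q := Nat.mul_le_mul_left _ ha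

lemma ce_sep {n D al a a' : ℕ} (hD : 1 ≤ D) (h : a < a') :
    ce n (MM n) D al a + (2 * rad n + 2) * ell n ≤ ce n (MM n) D al a' := by
  unfold ce ci
  obtain ⟨d, rfl⟩ := Nat.exists_eq_add_of_lt h
  have h1 : (2 * rad n + 2) * ell n ≤ (MM n * (d + 1)) * (D * ell n) := by
    have : MM n * 1 ≤ MM n * (d + 1) := Nat.mul_le_mul_left _ (by omega)
    have h2 : 1 * ell n ≤ D * ell n := Nat.mul_le_mul_right _ hD
    calc (2 * rad n + 2) * ell n = (MM n * 1) * (1 * ell n) := by unfold MM; ring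
      _ ≤ _ := Nat.mul_le_mul this h2
  calc n / 4 + (al + MM n * a) * (D * ell n) + (2 * rad n + 2) * ell n
      ≤ n / 4 + (al + MM n * a) * (D * ell n) + (MM n * (d + 1)) * (D * ell n) := by omega
    _ = _ := by ring

lemma wdw_disj {n D al be : ℕ} (hn : 1 ≤ n) (hD : 1 ≤ D) {t t' : ℕ × ℕ} (h : t ≠ t') :
    Disjoint (wdw n (ce n (MM n) D al t.1) (ce n (MM n) D be t.2))
      (wdw n (ce n (MM n) D al t'.1) (ce n (MM n) D be t'.2)) := by
  have hell : 1 ≤ ell n := by
    unfold ell; exact Nat.sqrt_pos.mpr hn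
  have hexp : (2 * rad n + 2) * ell n = 2 * (rad n * ell n) + 2 * ell n := by ring
  rw [Finset.disjoint_left]
  intro m hm hm'
  simp only [wdw, Finset.mem_filter] at hm hm'
  obtain ⟨-, ⟨h1, h2⟩, h3, h4⟩ := hm
  obtain ⟨-, ⟨h1', h2'⟩, h3', h4'⟩ := hm'
  apply h
  have e1 : t.1 = t'.1 := by
    rcases lt_trichotomy t.1 t'.1 with hl | hl | hl
    · have := ce_sep (n := n) (al := al) hD hl
      omega
    · exact hl
    · have := ce_sep (n := n) (al := al) hD hl
      omega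
  have e2 : t.2 = t'.2 := by
    rcases lt_trichotomy t.2 t'.2 with hl | hl | hl
    · have := ce_sep (n := n) (al := be) hD hl
      omega
    · exact hl
    · have := ce_sep (n := n) (al := be) hD hl
      omega
  exact Prod.ext e1 e2

lemma nc_ge (n D : ℕ) : MM n * QQ n D ≤ nc n D := Nat.mul_div_le _ _

section class_

universe u
variable {Ω : Type u} [MeasurableSpace Ω] {P : Measure Ω} [IsProbabilityMeasure P]
  {X : Ix → Ω → ℝ} {ν : Fin 2 → Measure ℝ} [∀ c, IsProbabilityMeasure (ν c)]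

/-- the event of a cell of a residue class -/
def EE (X : Ix → Ω → ℝ) (Φ : ℕ → ℕ → ℕ → Set (Ix → ℝ)) (n D al be : ℕ) {Q : ℕ}
    (t : Fin Q × Fin Q) : Set Ω :=
  ev X (Φ n (ce n (MM n) D al t.1) (ce n (MM n) D be t.2))

lemma indep_class (hX : Std P X ν) {Φ : ℕ → ℕ → ℕ → Set (Ix → ℝ)} {n D al be : ℕ}
    (hn : 1 ≤ n) (hD : 1 ≤ D) (hal : al < MM n) (hbe : be < MM n)
    (hdep : ∀ a b, a < nc n D → b < nc n D →
      DepOn ((Finset.univ : Finset (Fin 2)) ×ˢ wdw n (ci n D a) (ci n D b))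
        (Φ n (ci n D a) (ci n D b))) :
    (∀ t : Fin (QQ n D) × Fin (QQ n D), MeasurableSet (EE X Φ n D al be t)) ∧
    iIndepSet (fun t : Fin (QQ n D) × Fin (QQ n D) => EE X Φ n D al be t) P := by
  classical
  have hd : ∀ t : Fin (QQ n D) × Fin (QQ n D),
      DepOn ((Finset.univ : Finset (Fin 2)) ×ˢ
        wdw n (ce n (MM n) D al t.1) (ce n (MM n) D be t.2))
        (Φ n (ce n (MM n) D al t.1) (ce n (MM n) D be t.2)) := fun t =>
    hdep _ _ ((lt_of_res hal t.1.2).trans_le (nc_ge n D))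
      ((lt_of_res hbe t.2.2).trans_le (nc_ge n D))
  have hm : ∀ t : Fin (QQ n D) × Fin (QQ n D), MeasurableSet (EE X Φ n D al be t) := fun t =>
    measurableSet_ev hX.meas (hd t).meas
  refine ⟨hm, (iIndepSet_iff_meas_biInter hm).mpr fun s => ?_⟩
  have h1 := DepOn.prod (P := P) hX.meas hX.indep s
    (T := fun t : Fin (QQ n D) × Fin (QQ n D) => (Finset.univ : Finset (Fin 2)) ×ˢ
        wdw n (ce n (MM n) D al t.1) (ce n (MM n) D be t.2))
    (Φ := fun t => Φ n (ce n (MM n) D al t.1) (ce n (MM n) D be t.2)) (by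
      intro i j hij
      rw [Finset.disjoint_product]
      right
      refine wdw_disj (t := ((i.1 : ℕ), (i.2 : ℕ))) (t' := ((j.1 : ℕ), (j.2 : ℕ))) hn hD ?_
      intro he
      apply hij
      have e1 := congrArg Prod.fst he
      have e2 := congrArg Prod.snd he
      exact Prod.ext (Fin.ext e1) (Fin.ext e2)) hd
  have h2 : ev X (⋂ t ∈ s, Φ n (ce n (MM n) D al t.1) (ce n (MM n) D be t.2)) =
      ⋂ t ∈ s, EE X Φ n D al be t := by
    ext ω
    simp only [ev, EE, mem_iInter, mem_ofPred_eq]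
  rw [h2] at h1
  have h3 : (P (⋂ t ∈ s, EE X Φ n D al be t)).toReal =
      (∏ t ∈ s, P (EE X Φ n D al be t)).toReal := by
    rw [ENNReal.toReal_prod]
    exact h1
  exact (ENNReal.toReal_eq_toReal_iff' (measure_ne_top _ _)
    (ENNReal.prod_ne_top fun t _ => measure_ne_top _ _)).mp h3

/-- few good cells in one of the residue classes -/
def Bad (X : Ix → Ω → ℝ) (Φ : ℕ → ℕ → ℕ → Set (Ix → ℝ)) (n D : ℕ) (p : ℝ) : Set Ω :=
  ⋃ r : Fin (MM n) × Fin (MM n), {ω | ∑ t : Fin (QQ n D) × Fin (QQ n D),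
    (EE X Φ n D r.1 r.2 t).indicator (fun _ => (1:ℝ)) ω <
      p / 2 * Fintype.card (Fin (QQ n D) × Fin (QQ n D))}

lemma good_card {Φ : ℕ → ℕ → ℕ → Set (Ix → ℝ)} {n D : ℕ} {p : ℝ} {ω : Ω}
    (hω : ω ∉ Bad X Φ n D p) :
    ∃ T : Finset (ℕ × ℕ), p / 2 * ((MM n : ℝ) * QQ n D) ^ 2 ≤ T.card ∧
      ∀ t ∈ T, t.1 < nc n D ∧ t.2 < nc n D ∧ ω ∈ ev X (Φ n (ci n D t.1) (ci n D t.2)) := by
  classical
  set T : Finset (ℕ × ℕ) :=
    ((Finset.range (MM n * QQ n D)) ×ˢ (Finset.range (MM n * QQ n D))).filter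
      fun t => ω ∈ ev X (Φ n (ci n D t.1) (ci n D t.2)) with hT
  refine ⟨T, ?_, ?_⟩
  · set S : Finset ((Fin (MM n) × Fin (MM n)) × (Fin (QQ n D) × Fin (QQ n D))) :=
      Finset.univ.filter fun x => ω ∈ EE X Φ n D x.1.1 x.1.2 x.2 with hS
    have h1 : S.card ≤ T.card := by
      refine Finset.card_le_card_of_injOn
        (fun x => ((x.1.1 : ℕ) + MM n * x.2.1, (x.1.2 : ℕ) + MM n * x.2.2)) ?_ ?_
      · intro x hx
        have hx' := (Finset.mem_filter.mp (Finset.mem_coe.mp hx)).2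
        refine Finset.mem_coe.mpr (Finset.mem_filter.mpr ⟨Finset.mem_product.mpr ⟨?_, ?_⟩, hx'⟩)
        · exact Finset.mem_range.mpr (lt_of_res x.1.1.2 x.2.1.2)
        · exact Finset.mem_range.mpr (lt_of_res x.1.2.2 x.2.2.2)
      · intro x _ y _ hxy
        have e1 := congrArg Prod.fst hxy
        have e2 := congrArg Prod.snd hxy
        simp only at e1 e2
        have key : ∀ {M a b c d : ℕ}, a < M → c < M → a + M * b = c + M * d → a = c ∧ b = d := by
          intro M a b c d ha hc he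
          have h3 : a = c := by
            have := congrArg (· % M) he
            simpa [Nat.add_mul_mod_self_left, Nat.mod_eq_of_lt ha, Nat.mod_eq_of_lt hc] using this
          subst h3
          exact ⟨rfl, Nat.eq_of_mul_eq_mul_left (by omega) (Nat.add_left_cancel he)⟩
        obtain ⟨a1, a2⟩ := key x.1.1.2 y.1.1.2 e1
        obtain ⟨b1, b2⟩ := key x.1.2.2 y.1.2.2 e2
        exact Prod.ext (Prod.ext (Fin.ext a1) (Fin.ext b1)) (Prod.ext (Fin.ext a2) (Fin.ext b2))
    have h2 : (S.card : ℝ) = ∑ r : Fin (MM n) × Fin (MM n),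
        ∑ t : Fin (QQ n D) × Fin (QQ n D),
          (EE X Φ n D r.1 r.2 t).indicator (fun _ => (1:ℝ)) ω := by
      rw [hS, Finset.card_filter, Nat.cast_sum, Fintype.sum_prod_type]
      refine Finset.sum_congr rfl fun r _ => Finset.sum_congr rfl fun t _ => ?_
      by_cases h : ω ∈ EE X Φ n D r.1 r.2 t
      · rw [Set.indicator_of_mem h]; simp [h]
      · rw [Set.indicator_of_notMem h]; simp [h]
    have h3 : ∀ r : Fin (MM n) × Fin (MM n),
        p / 2 * ((QQ n D : ℝ) * QQ n D) ≤ ∑ t : Fin (QQ n D) × Fin (QQ n D),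
          (EE X Φ n D r.1 r.2 t).indicator (fun _ => (1:ℝ)) ω := by
      intro r
      by_contra hcon
      push Not at hcon
      apply hω
      refine mem_iUnion.mpr ⟨r, ?_⟩
      simp only [mem_ofPred_eq, Fintype.card_prod, Fintype.card_fin, Nat.cast_mul]
      exact hcon
    calc p / 2 * ((MM n : ℝ) * QQ n D) ^ 2
        = ∑ r : Fin (MM n) × Fin (MM n), p / 2 * ((QQ n D : ℝ) * QQ n D) := by
          rw [Finset.sum_const, Finset.card_univ, Fintype.card_prod, Fintype.card_fin, nsmul_eq_mul]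
          push_cast; ring
      _ ≤ ∑ r : Fin (MM n) × Fin (MM n), ∑ t : Fin (QQ n D) × Fin (QQ n D),
          (EE X Φ n D r.1 r.2 t).indicator (fun _ => (1:ℝ)) ω :=
          Finset.sum_le_sum fun r _ => h3 r
      _ = S.card := h2.symm
      _ ≤ T.card := by exact_mod_cast h1
  · intro t ht
    obtain ⟨h1, h2⟩ := Finset.mem_filter.mp ht
    obtain ⟨h3, h4⟩ := Finset.mem_product.mp h1
    exact ⟨(Finset.mem_range.mp h3).trans_le (nc_ge n D),
      (Finset.mem_range.mp h4).trans_le (nc_ge n D), h2⟩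

end class_

theorem many_all.{u} (hch : S_CHERN.{u}) (hcen : S_CEN) : S_MANY.{u} := by
  intro p₀ D hp hD
  obtain ⟨θ, hθ0, hθ1, hθ⟩ := hch p₀ hp
  have hD' : (1 : ℝ) ≤ D := by exact_mod_cast hD
  refine ⟨p₀ / (3200 * (D:ℝ) ^ 2), by positivity, ?_⟩
  intro Ω _ P _ X ν _ hX Φ n₀ hΦ
  obtain ⟨n₁, hn₁⟩ := eventually_atTop.mp (asym D hD θ hθ0 hθ1)
  -- the probability of the bad events
  have hbad : ∀ n, n₀ ≤ n → 16 ≤ n →
      P.real (Bad X Φ n D p₀) ≤ (MM n : ℝ) ^ 2 * θ ^ (QQ n D * QQ n D) := by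
    intro n h0 h16
    have hcell : ∀ a b, a < nc n D → b < nc n D →
        DepOn ((Finset.univ : Finset (Fin 2)) ×ˢ wdw n (ci n D a) (ci n D b))
          (Φ n (ci n D a) (ci n D b)) ∧ p₀ ≤ P.real (ev X (Φ n (ci n D a) (ci n D b))) :=
      fun a b ha hb => hΦ n h0 _ _ (hcen D hD n h16 a b ha hb)
    unfold Bad
    refine (measureReal_iUnion_fintype_le _).trans ?_
    calc ∑ r : Fin (MM n) × Fin (MM n), P.real {ω | ∑ t : Fin (QQ n D) × Fin (QQ n D),
          (EE X Φ n D r.1 r.2 t).indicator (fun _ => (1:ℝ)) ω <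
            p₀ / 2 * Fintype.card (Fin (QQ n D) × Fin (QQ n D))}
        ≤ ∑ _r : Fin (MM n) × Fin (MM n), θ ^ (QQ n D * QQ n D) := by
          refine Finset.sum_le_sum fun r _ => ?_
          obtain ⟨hm, hi⟩ := indep_class hX (Φ := Φ) (n := n) (D := D) (by omega) hD r.1.2 r.2.2
            (fun a b ha hb => (hcell a b ha hb).1)
          have := hθ P (Fin (QQ n D) × Fin (QQ n D)) (fun t => EE X Φ n D r.1 r.2 t) hm hi
            (fun t => (hcell _ _ ((lt_of_res r.1.2 t.1.2).trans_le (nc_ge n D))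
              ((lt_of_res r.2.2 t.2.2).trans_le (nc_ge n D))).2)
          simpa only [Fintype.card_prod, Fintype.card_fin] using this
      _ = (MM n : ℝ) ^ 2 * θ ^ (QQ n D * QQ n D) := by
          rw [Finset.sum_const, Finset.card_univ, Fintype.card_prod, Fintype.card_fin, nsmul_eq_mul]
          push_cast; ring
  set n₂ := max n₁ (max n₀ 16) with hn₂
  have hbc := ae_eventually_notMem (μ := P)
    (s := fun n => if n₂ ≤ n then Bad X Φ n D p₀ else ∅) (by
      have hs : Summable fun n : ℕ => 1 / (n : ℝ) ^ 2 :=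
        Real.summable_one_div_nat_pow.mpr (by norm_num)
      refine ne_top_of_le_ne_top hs.tsum_ofReal_ne_top (ENNReal.tsum_le_tsum fun n => ?_)
      split_ifs with h
      · have h1 : n₁ ≤ n := (le_max_left _ _).trans h
        have h2 : n₀ ≤ n := ((le_max_left _ _).trans (le_max_right _ _)).trans h
        have h3 : 16 ≤ n := ((le_max_right _ _).trans (le_max_right _ _)).trans h
        rw [ENNReal.le_ofReal_iff_toReal_le (measure_ne_top _ _) (by positivity)]
        exact (hbad n h2 h3).trans (hn₁ n h1).1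
      · simp)
  filter_upwards [hbc] with ω hω
  filter_upwards [hω, eventually_ge_atTop n₂] with n h1 h2
  rw [if_pos h2] at h1
  obtain ⟨T, hT1, hT2⟩ := good_card h1
  refine ⟨T, ?_, hT2⟩
  have h3 := (hn₁ n ((le_max_left _ _).trans h2)).2
  calc p₀ / (3200 * (D:ℝ) ^ 2) * n = p₀ / 2 * ((n:ℝ) / (1600 * (D:ℝ) ^ 2)) := by
        field_simp; ring
    _ ≤ p₀ / 2 * ((MM n : ℝ) * QQ n D) ^ 2 := mul_le_mul_of_nonneg_left h3 (by positivity)
    _ ≤ T.card := hT1

end Pool.Agent.Y328.KS
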