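import Pool.Agent.Y300.KS.Stm

/-! Kostlan systems: growth of the number of the cells. -/

open Set MeasureTheory ProbabilityTheory Filter Topology

namespace Pool.Agent.Y328.KS

open Pool.Agent.K300 Pool.Agent.Y300.KS

/-- the period of the cells -/
def MM (n : ℕ) : ℕ := 2 * rad n + 2

/-- the number of the periods -/
def QQ (n D : ℕ) : ℕ := nc n D / MM n

lemma tendsto_x : Tendsto (fun n : ℕ => (n : ℝ) ^ (1 / 8 : ℝ)) atTop atTop :=
  (tendsto_rpow_atTop (by norm_num)).comp tendsto_natCast_atTop_atTop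

lemma MM_le : ∀ᶠ n : ℕ in atTop, (MM n : ℝ) ≤ (n : ℝ) ^ (1 / 8 : ℝ) := by
  have h1 : ∀ᶠ n : ℕ in atTop, ‖Real.log (n : ℝ)‖ ≤ (1 / 96 : ℝ) * ‖(n : ℝ) ^ (1 / 8 : ℝ)‖ :=
    tendsto_natCast_atTop_atTop.eventually
      ((isLittleO_log_rpow_atTop (r := 1 / 8) (by norm_num)).bound (by norm_num))
  have h2 : ∀ᶠ n : ℕ in atTop, (52 : ℝ) ≤ (n : ℝ) ^ (1 / 8 : ℝ) :=
    tendsto_x.eventually_ge_atTop 52
  filter_upwards [h1, h2, eventually_ge_atTop 1] with n h1 h2 h3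
  have hn : (1 : ℝ) ≤ n := by exact_mod_cast h3
  rw [Real.norm_of_nonneg (Real.log_nonneg hn), Real.norm_of_nonneg (by positivity)] at h1
  have h4 : (Nat.log 2 n : ℝ) ≤ Real.log n / Real.log 2 := Real.natLog_le_logb n 2
  have h5 : Real.log n / Real.log 2 ≤ 2 * Real.log n := by
    rw [div_le_iff₀ (Real.log_pos (by norm_num))]
    have := Real.log_two_gt_d9
    nlinarith [Real.log_nonneg hn]
  unfold MM rad
  push_cast
  linarith

lemma x_pow (n : ℕ) : ((n : ℝ) ^ (1 / 8 : ℝ)) ^ 8 = n := by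
  rw [← Real.rpow_natCast, ← Real.rpow_mul (by positivity)]
  norm_num

lemma asym (D : ℕ) (hD : 1 ≤ D) (θ : ℝ) (h0 : 0 < θ) (h1 : θ < 1) :
    ∀ᶠ n : ℕ in atTop, (MM n : ℝ) ^ 2 * θ ^ (QQ n D * QQ n D) ≤ 1 / (n : ℝ) ^ 2 ∧
      (n : ℝ) / (1600 * (D : ℝ) ^ 2) ≤ ((MM n : ℝ) * QQ n D) ^ 2 := by
  have hD' : (1 : ℝ) ≤ D := by exact_mod_cast hD
  have hexp : ∀ᶠ y : ℝ in atTop, y ^ (5 : ℝ) * Real.exp (-(-Real.log θ) * y) ≤ 1 := by
    have := tendsto_rpow_mul_exp_neg_mul_atTop_nhds_zero 5 (-Real.log θ)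
      (by have := Real.log_neg h0 h1; linarith)
    exact (this.eventually (gt_mem_nhds one_pos)).mono fun _ h => le_of_lt h
  have ht : Tendsto (fun n : ℕ => ((n : ℝ) ^ (1 / 8 : ℝ)) ^ 4) atTop atTop :=
    (tendsto_pow_atTop (by norm_num)).comp tendsto_x
  filter_upwards [MM_le, tendsto_x.eventually_ge_atTop (1000 * D), ht.eventually hexp,
    eventually_ge_atTop 1] with n hM hx hy hn1
  set x : ℝ := (n : ℝ) ^ (1 / 8 : ℝ) with hxdef
  have hx8 : x ^ 8 = n := x_pow n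
  have hx1 : (1000 : ℝ) ≤ x := by nlinarith
  have hx0 : (0 : ℝ) < x := by linarith
  have hM2 : (2 : ℝ) ≤ MM n := by
    have : 2 ≤ MM n := by unfold MM; omega
    exact_mod_cast this
  -- the scale
  have hell : x ^ 4 < (ell n : ℝ) + 1 := by
    have h2 : n < (Nat.sqrt n + 1) * (Nat.sqrt n + 1) := Nat.lt_succ_sqrt n
    have h3 : (n : ℝ) < ((Nat.sqrt n : ℝ) + 1) * ((Nat.sqrt n : ℝ) + 1) := by exact_mod_cast h2
    rw [← hx8] at h3
    have h4 : (0 : ℝ) ≤ (Nat.sqrt n : ℝ) + 1 := by positivity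
    unfold ell
    by_contra hcon
    push Not at hcon
    nlinarith [pow_pos hx0 4]
  have hA : (ell n : ℝ) < 20 * D * ((nc n D : ℝ) + 1) := by
    have h2 : ell n < 20 * D * (nc n D + 1) := by
      unfold nc
      exact Nat.lt_mul_div_succ _ (by omega)
    exact_mod_cast h2
  have hQ : (nc n D : ℝ) < MM n * ((QQ n D : ℝ) + 1) := by
    have h2 : nc n D < MM n * (QQ n D + 1) := by
      unfold QQ
      exact Nat.lt_mul_div_succ _ (by unfold MM; omega)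
    exact_mod_cast h2
  have hx3 : (0:ℝ) < x ^ 3 := by positivity
  have hx4 : x ^ 4 = x * x ^ 3 := by ring
  have h1000 : 1000 * (D:ℝ) * x ^ 3 ≤ x ^ 4 := by
    rw [hx4]; exact mul_le_mul_of_nonneg_right hx hx3.le
  have hx31 : x ≤ x ^ 3 := by nlinarith [mul_pos hx0 hx0]
  have hx30 : (1000:ℝ) ≤ x ^ 3 := by linarith
  -- lower bound for `M Q`
  have hMQ : x ^ 4 ≤ 40 * D * (MM n * QQ n D) := by
    have h2 : x ^ 4 < 20 * D * (MM n * ((QQ n D : ℝ) + 1) + 1) + 1 := by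
      have : 20 * (D:ℝ) * ((nc n D : ℝ) + 1) ≤ 20 * D * (MM n * ((QQ n D : ℝ) + 1) + 1) :=
        mul_le_mul_of_nonneg_left (by linarith) (by positivity)
      linarith
    have h3 : 20 * (D:ℝ) * MM n ≤ 20 * D * x := mul_le_mul_of_nonneg_left hM (by positivity)
    have h4 : 20 * (D:ℝ) * x ≤ 20 * D * x ^ 3 := mul_le_mul_of_nonneg_left hx31 (by positivity)
    have h5 : 20 * (D:ℝ) * 1 ≤ 20 * D * x ^ 3 := mul_le_mul_of_nonneg_left (by linarith) (by positivity)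
    have h6 : (1:ℝ) ≤ D * x ^ 3 := by nlinarith
    nlinarith
  have hQx : x ^ 2 ≤ QQ n D := by
    have h2 : 40 * (D:ℝ) * (MM n * QQ n D) ≤ 40 * D * (x * QQ n D) := by
      refine mul_le_mul_of_nonneg_left ?_ (by positivity)
      exact mul_le_mul_of_nonneg_right hM (by positivity)
    have h3 : x * (1000 * D * x ^ 2) ≤ x * (40 * D * QQ n D) := by
      calc x * (1000 * D * x ^ 2) = 1000 * D * x ^ 3 := by ring
        _ ≤ x ^ 4 := h1000
        _ ≤ 40 * D * (MM n * QQ n D) := hMQ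
        _ ≤ 40 * D * (x * QQ n D) := h2
        _ = x * (40 * D * QQ n D) := by ring
    have h4 := le_of_mul_le_mul_left h3 hx0
    have h5 : (40 * (D:ℝ)) * (25 * x ^ 2) ≤ (40 * D) * QQ n D := by linarith
    have h6 := le_of_mul_le_mul_left h5 (by positivity)
    nlinarith [sq_nonneg x]
  refine ⟨?_, ?_⟩
  · have h2 : x ^ 4 ≤ ((QQ n D * QQ n D : ℕ) : ℝ) := by
      push_cast
      calc x ^ 4 = x ^ 2 * x ^ 2 := by ring
        _ ≤ (QQ n D : ℝ) * QQ n D := mul_le_mul hQx hQx (by positivity) (by positivity)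
    have h3 : θ ^ (QQ n D * QQ n D) ≤ θ ^ (x ^ 4) := by
      rw [← Real.rpow_natCast]
      exact Real.rpow_le_rpow_of_exponent_ge h0 h1.le h2
    have h4 : θ ^ (x ^ 4) = Real.exp (-(-Real.log θ) * x ^ 4) := by
      rw [Real.rpow_def_of_pos h0, neg_neg]
    have h5 : (x ^ 4) ^ (5:ℝ) = x ^ 20 := by
      rw [show (5:ℝ) = ((5:ℕ):ℝ) by norm_num, Real.rpow_natCast]; ring
    rw [h5, ← h4] at hy
    have hn2 : (n:ℝ) ^ 2 = x ^ 16 := by rw [← hx8]; ring
    rw [le_div_iff₀ (by rw [hn2]; positivity), hn2]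
    have hθ : 0 < θ ^ (x ^ 4) := Real.rpow_pos_of_pos h0 _
    calc (MM n : ℝ) ^ 2 * θ ^ (QQ n D * QQ n D) * x ^ 16
        ≤ x ^ 2 * θ ^ (x ^ 4) * x ^ 16 := by
          refine mul_le_mul_of_nonneg_right ?_ (by positivity)
          exact mul_le_mul (pow_le_pow_left₀ (by positivity) hM 2) h3 (by positivity) (by positivity)
      _ = x ^ 18 * θ ^ (x ^ 4) := by ring
      _ ≤ x ^ 20 * θ ^ (x ^ 4) := by
          refine mul_le_mul_of_nonneg_right ?_ hθ.le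
          exact pow_le_pow_right₀ (by linarith) (by norm_num)
      _ ≤ 1 := hy
  · rw [div_le_iff₀ (by positivity), ← hx8]
    calc x ^ 8 = (x ^ 4) ^ 2 := by ring
      _ ≤ (40 * (D:ℝ) * (MM n * QQ n D)) ^ 2 := pow_le_pow_left₀ (by positivity) hMQ 2
      _ = _ := by ring

end Pool.Agent.Y328.KS
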